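import Pool.Agent.X328.GN.Stm3

/-!
Part EL1 of project GN: elimination of one root by a resultant.
-/

set_option autoImplicit false

open Finset Polynomial

universe u

noncomputable section

namespace Pool.Agent.X274.GN

lemma mapC {A A' : Type*} [CommRing A] [CommRing A'] (φ : A →+* A') (p : A[X]) :
    (p.map (C : A →+* A[X])).map (mapRingHom φ) = (p.map φ).map C := by
  rw [Polynomial.map_map, Polynomial.map_map]
  congr 1
  ext a
  simp

/-- the resultant in `Z` of `F (Z)` and `W - G (Z)` -/
def res {A : Type*} [CommRing A] (n m : ℕ) (F G : A[X]) : A[X] :=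
  resultant (F.map C : A[X][X]) (C X - G.map C) n m

lemma res_map {A A' : Type*} [CommRing A] [CommRing A'] (φ : A →+* A') (n m : ℕ) (F G : A[X]) :
    (res n m F G).map φ = res n m (F.map φ) (G.map φ) := by
  rw [res, res, ← coe_mapRingHom, ← resultant_map_map, mapC]
  congr 1
  rw [Polynomial.map_sub, mapC, map_C]
  simp

lemma res_eq {K : Type*} [Field K] (m : ℕ) (F G : K[X]) (hs : F.Splits) (hG : G.natDegree ≤ m) :
    res F.natDegree m F G = C (F.leadingCoeff ^ m) * (F.roots.map fun z => X - C (G.eval z)).prod := by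
  have hinj : Function.Injective (C : K →+* K[X]) := C_injective
  have hGd : (C X - G.map C : K[X][X]).natDegree ≤ m := by
    refine (natDegree_sub_le _ _).trans (max_le ?_ ?_)
    · rw [natDegree_C]; exact Nat.zero_le _
    · exact natDegree_map_le.trans hG
  have key := resultant_eq_prod_eval (F.map (C : K →+* K[X])) (C X - G.map C) m hGd (hs.map C)
  rw [natDegree_map_eq_of_injective hinj] at key
  rw [res, key, hs.roots_map C, Multiset.map_map, leadingCoeff_map_of_injective hinj, C_pow]
  congr 1
  congr 1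
  refine Multiset.map_congr rfl fun x _ => ?_
  change (C X - G.map C : K[X][X]).eval (C x) = _
  rw [eval_sub, eval_C, eval_map, eval₂_at_apply]

lemma key {K : Type*} [Field K] (s : Multiset K) (c : K) (hc : c ≠ 0) :
    (∃ j < Multiset.card s, (C c * (s.map fun w => X - C w).prod).coeff j ≠ 0) ↔ ∃ w ∈ s, w ≠ 0 := by
  constructor
  · rintro ⟨j, hj, h⟩
    by_contra h'
    push Not at h'
    have h1 : s.map (fun w => (X - C w : K[X])) = s.map (fun _ => (X : K[X])) :=
      Multiset.map_congr rfl fun w hw => by rw [h' w hw, C_0, sub_zero]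
    rw [h1, Multiset.map_const', Multiset.prod_replicate, coeff_C_mul, coeff_X_pow,
      if_neg (by omega), mul_zero] at h
    exact h rfl
  · rintro ⟨w, hw, hw0⟩
    by_contra h'
    push Not at h'
    have hm : (s.map fun w => (X - C w : K[X])).prod.Monic := monic_multiset_prod_of_monic _ _
      fun w _ => monic_X_sub_C w
    have hd : (s.map fun w => (X - C w : K[X])).prod.natDegree = Multiset.card s :=
      natDegree_multiset_prod_X_sub_C_eq_card s
    have hX : (s.map fun w => (X - C w : K[X])).prod = X ^ Multiset.card s := by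
      ext j
      rw [coeff_X_pow]
      rcases lt_trichotomy j (Multiset.card s) with h | h | h
      · have h1 := h' j h
        rw [coeff_C_mul] at h1
        rw [if_neg (by omega)]
        exact (mul_eq_zero.1 h1).resolve_left hc
      · rw [if_pos h, h]
        have := hm.coeff_natDegree
        rwa [hd] at this
      · rw [if_neg (by omega)]
        exact coeff_eq_zero_of_natDegree_lt (by omega)
    have h2 : (s.map fun w => (X - C w : K[X])).prod.eval w = 0 := by
      rw [eval_multiset_prod, Multiset.map_map]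
      refine Multiset.prod_eq_zero (Multiset.mem_map.2 ⟨w, hw, ?_⟩)
      simp
    rw [hX, eval_pow, eval_X] at h2
    exact hw0 (pow_eq_zero_iff (Multiset.card_pos_iff_exists_mem.2 ⟨w, hw⟩).ne' |>.1 h2)

theorem t_EL1 : Pool.Agent.X328.GN.S_EL1.{u} := by
  intro A _ n F G hF
  refine ⟨fun j => (res n G.natDegree F G).coeff j, fun K _ _ φ hφ => ?_⟩
  have hne : (F.map φ).coeff n ≠ 0 := by rwa [coeff_map]
  have hd : (F.map φ).natDegree = n :=
    le_antisymm (natDegree_map_le.trans hF) (le_natDegree_of_ne_zero hne)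
  have hF0 : F.map φ ≠ 0 := fun h => hne (by rw [h, coeff_zero])
  have hs : (F.map φ).Splits := IsAlgClosed.splits _
  have h1 := res_eq G.natDegree (F.map φ) (G.map φ) hs natDegree_map_le
  rw [hd, ← res_map] at h1
  have hcard : Multiset.card ((F.map φ).roots.map fun z => (G.map φ).eval z) = n := by
    rw [Multiset.card_map, ← hd, hs.natDegree_eq_card_roots]
  have h2 := key ((F.map φ).roots.map fun z => (G.map φ).eval z)
    ((F.map φ).leadingCoeff ^ G.natDegree) (pow_ne_zero _ (leadingCoeff_ne_zero.2 hF0))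
  rw [hcard, Multiset.map_map] at h2
  change (∃ j < n, (C ((F.map φ).leadingCoeff ^ G.natDegree) *
    ((F.map φ).roots.map fun z => X - C ((G.map φ).eval z)).prod).coeff j ≠ 0) ↔ _ at h2
  rw [← h1] at h2
  constructor
  · rintro ⟨j, hj⟩
    obtain ⟨w, hw, hw0⟩ := h2.1 ⟨j, j.2, by rwa [coeff_map]⟩
    obtain ⟨z, hz, rfl⟩ := Multiset.mem_map.1 hw
    exact ⟨z, (mem_roots'.1 hz).2, hw0⟩
  · rintro ⟨z, hz, hz'⟩
    obtain ⟨j, hj, h⟩ := h2.2 ⟨_, Multiset.mem_map.2 ⟨z, (mem_roots hF0).2 hz, rfl⟩, hz'⟩
    exact ⟨⟨j, hj⟩, by rwa [coeff_map] at h⟩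

end Pool.Agent.X274.GN
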